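import Mathlib
import Pool.Agent.W758.AHC.Stm

/-! AHC-LO: the Erdos-Littlewood-Offord bound for rational weights. -/

set_option autoImplicit false

namespace Pool.Agent.W168.AHC

open Finset

theorem lo : Pool.Agent.W758.AHC.S_LO := by
  intro ι _ s w t X hw hX
  classical
  let g : Finset ι → Finset ↥s := fun x => Finset.univ.filter
    (fun i : ↥s => (i.1 ∈ x ∧ 0 < w i) ∨ (i.1 ∉ x ∧ w i < 0))
  have hg : ∀ (x : Finset ι) (i : ↥s), i ∈ g x ↔ (i.1 ∈ x ∧ 0 < w i) ∨ (i.1 ∉ x ∧ w i < 0) := by
    intro x i
    simp [g]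
  have hkey : ∀ x, x ⊆ s →
      ∑ i ∈ x, w i = ∑ i ∈ g x, |w i| + ∑ i : ↥s, min (w i) 0 := by
    intro x hx
    have h1 : ∑ i ∈ x, w i = ∑ i : ↥s, (if i.1 ∈ x then w i else 0) := by
      rw [Finset.sum_coe_sort s (fun i => if i ∈ x then w i else 0), ← Finset.sum_filter]
      congr 1
      ext i
      simp only [Finset.mem_filter]
      exact ⟨fun h => ⟨hx h, h⟩, fun h => h.2⟩
    have h2 : ∑ i ∈ g x, |w i| = ∑ i : ↥s, (if i ∈ g x then |w i| else 0) := by
      rw [← Finset.sum_filter]
      congr 1
      ext i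
      simp
    rw [h1, h2, ← Finset.sum_add_distrib]
    refine Finset.sum_congr rfl (fun i _ => ?_)
    have hwi : w i ≠ 0 := hw i.1 i.2
    rcases lt_or_gt_of_ne hwi with hlt | hgt
    · by_cases hix : i.1 ∈ x
      · have hn : i ∉ g x := by
          rw [hg]
          rintro (h | h)
          · exact absurd h.2 (not_lt.mpr hlt.le)
          · exact h.1 hix
        rw [if_pos hix, if_neg hn, min_eq_left hlt.le, zero_add]
      · have hn : i ∈ g x := by
          rw [hg]
          exact Or.inr ⟨hix, hlt⟩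
        rw [if_neg hix, if_pos hn, min_eq_left hlt.le, abs_of_neg hlt]
        ring
    · by_cases hix : i.1 ∈ x
      · have hn : i ∈ g x := by
          rw [hg]
          exact Or.inl ⟨hix, hgt⟩
        rw [if_pos hix, if_pos hn, min_eq_right hgt.le, abs_of_pos hgt, add_zero]
      · have hn : i ∉ g x := by
          rw [hg]
          rintro (h | h)
          · exact hix h.1
          · exact absurd h.2 (not_lt.mpr hgt.le)
        rw [if_neg hix, if_neg hn, min_eq_right hgt.le, zero_add]
  have hinj : Set.InjOn g (X : Set (Finset ι)) := by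
    intro x hx y hy hxy
    have hxs := (hX x hx).1
    have hys := (hX y hy).1
    have haux : ∀ i, i ∈ s → (i ∈ x ↔ i ∈ y) := by
      intro i hi
      have h1 := hg x ⟨i, hi⟩
      have h2 := hg y ⟨i, hi⟩
      rw [hxy] at h1
      have h3 := h1.symm.trans h2
      have hwi : w i ≠ 0 := hw i hi
      simp only at h3
      rcases lt_or_gt_of_ne hwi with hlt | hgt
      · have hn : ¬ (0 < w i) := not_lt.mpr hlt.le
        simp only [hn, hlt, and_false, and_true, false_or] at h3
        exact not_iff_not.mp h3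
      · have hn : ¬ (w i < 0) := not_lt.mpr hgt.le
        have hgt' : 0 < w i := hgt
        simp only [hn, hgt', and_false, and_true, or_false] at h3
        exact h3
    ext i
    constructor
    · intro hi
      exact (haux i (hxs hi)).mp hi
    · intro hi
      exact (haux i (hys hi)).mpr hi
  have hanti : IsAntichain (· ⊆ ·) ((X.image g : Finset (Finset ↥s)) : Set (Finset ↥s)) := by
    intro a ha b hb hab hsub
    rw [Finset.mem_coe, Finset.mem_image] at ha hb
    obtain ⟨x, hx, rfl⟩ := ha
    obtain ⟨y, hy, rfl⟩ := hb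
    have hxk := hkey x (hX x hx).1
    have hyk := hkey y (hX y hy).1
    rw [(hX x hx).2] at hxk
    rw [(hX y hy).2] at hyk
    have heq : ∑ i ∈ g x, |w i| = ∑ i ∈ g y, |w i| := by linarith
    have hssub : g x ⊂ g y := Finset.ssubset_iff_subset_ne.mpr ⟨hsub, hab⟩
    obtain ⟨j, hj, hjn⟩ := Finset.exists_of_ssubset hssub
    have hlt : ∑ i ∈ g x, |w i| < ∑ i ∈ g y, |w i| :=
      Finset.sum_lt_sum_of_subset hsub hj hjn (abs_pos.mpr (hw j.1 j.2))
        (fun i _ _ => abs_nonneg _)
    exact absurd heq hlt.ne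
  have hs := hanti.sperner
  rw [Finset.card_image_of_injOn hinj, Fintype.card_coe] at hs
  exact hs

end Pool.Agent.W168.AHC
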